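import Pool.Agent.H34.FS.Targets
import Pool.Agent.H81.RQ.AQ4

/-!
# Board hfs_modules, row AL1 (helper17): for most pairs the density modulo `M` is at least one half
-/

set_option autoImplicit false
set_option linter.unusedSectionVars false

open Finset Pool.Agent.H32.RQ Pool.Agent.H34.FQ

namespace Pool.Agent.H17.HFS

open Pool.Agent.H34.FS
open Pool.Agent.H81.RQ (tailD)

section

variable {r M : ℕ} [NeZero M]

/-- the linear forms with a given value -/
noncomputable def z1 (t : ZMod M) (u : Fin r → ZMod M) : Finset (Fin (r + 1) → ZMod M) :=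
  univ.filter fun l => t + ∑ j, l j * cv 1 u j = 0

/-- the linear forms with two given values -/
noncomputable def z2 (t t' : ZMod M) (u u' : Fin r → ZMod M) : Finset (Fin (r + 1) → ZMod M) :=
  univ.filter fun l => t + ∑ j, l j * cv 1 u j = 0 ∧ t' + ∑ j, l j * cv 1 u' j = 0

theorem sum_cv (l : Fin (r + 1) → ZMod M) (u : Fin r → ZMod M) :
    ∑ j, l j * cv 1 u j = l 0 + ∑ j : Fin r, l j.succ * u j := by
  rw [Fin.sum_univ_succ]
  simp [cv]

theorem card_z1 (t : ZMod M) (u : Fin r → ZMod M) : (z1 t u).card = M ^ r := by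
  classical
  have h1 : (z1 t u) = (univ : Finset (Fin r → ZMod M)).image
      (fun l' : Fin r → ZMod M => (Fin.cons (-(t + ∑ j, l' j * u j)) l' : Fin (r + 1) → ZMod M)) := by
    ext l
    rw [z1, mem_filter, mem_image]
    constructor
    · rintro ⟨-, h⟩
      rw [sum_cv] at h
      refine ⟨fun j => l j.succ, mem_univ _, ?_⟩
      funext j
      refine Fin.cases ?_ (fun j => ?_) j
      · rw [Fin.cons_zero]
        linear_combination -h
      · rw [Fin.cons_succ]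
    · rintro ⟨l', -, rfl⟩
      refine ⟨mem_univ _, ?_⟩
      rw [sum_cv, Fin.cons_zero]
      simp only [Fin.cons_succ]
      ring
  rw [h1, card_image_of_injective, card_univ, Fintype.card_fun, ZMod.card, Fintype.card_fin]
  intro l' l'' h
  funext j
  have h2 := congrFun h j.succ
  simpa using h2

/-- sums over pairs of indicators of products -/
theorem sum_prod_ind {ι : Type} [Fintype ι] (P : Fin 2 → ι → Prop) [∀ i, DecidablePred (P i)]
    [DecidablePred fun L : Fin 2 → ι => ∀ i, P i (L i)] :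
    ∑ L : Fin 2 → ι, (if ∀ i, P i (L i) then (1 : ℝ) else 0) =
      ∏ i, ((univ.filter (P i)).card : ℝ) := by
  classical
  rw [← Nat.cast_prod, ← Fintype.card_piFinset, Finset.sum_boole]
  congr 2
  ext L
  simp [Fintype.mem_piFinset]

/-- the indicator of the zeros -/
noncomputable def i1 (t : Fin 2 → (Fin r → ZMod M) → ZMod M) (L : Fin 2 → Fin (r + 1) → ZMod M)
    (u : Fin r → ZMod M) : ℝ := if ∀ i, t i u + ∑ j, L i j * cv 1 u j = 0 then 1 else 0

theorem sum_i1 (t : Fin 2 → (Fin r → ZMod M) → ZMod M) (u : Fin r → ZMod M) :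
    ∑ L : Fin 2 → Fin (r + 1) → ZMod M, i1 t L u = ∏ i, ((z1 (t i u) u).card : ℝ) :=
  sum_prod_ind (fun i (l : Fin (r + 1) → ZMod M) => t i u + ∑ j, l j * cv 1 u j = 0)

theorem sum_i2 (t : Fin 2 → (Fin r → ZMod M) → ZMod M) (u u' : Fin r → ZMod M) :
    ∑ L : Fin 2 → Fin (r + 1) → ZMod M, i1 t L u * i1 t L u' =
      ∏ i, ((z2 (t i u) (t i u') u u').card : ℝ) := by
  have h := sum_prod_ind (fun (i : Fin 2) (l : Fin (r + 1) → ZMod M) =>
    t i u + ∑ j, l j * cv 1 u j = 0 ∧ t i u' + ∑ j, l j * cv 1 u' j = 0)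
  refine Eq.trans ?_ h
  refine sum_congr rfl fun L _ => ?_
  unfold i1
  by_cases h1 : ∀ i, t i u + ∑ j, L i j * cv 1 u j = 0
  · by_cases h2 : ∀ i, t i u' + ∑ j, L i j * cv 1 u' j = 0
    · rw [if_pos h1, if_pos h2, if_pos (fun i => ⟨h1 i, h2 i⟩), one_mul]
    · rw [if_pos h1, if_neg h2, if_neg (fun h3 => h2 fun i => (h3 i).2), mul_zero]
  · rw [if_neg h1, zero_mul, if_neg (fun h3 => h1 fun i => (h3 i).1)]

end

theorem aL_eq (hGGE : T_GGE) {r : ℕ} (F : Fin 2 → Mon r → ℤ) (M : ℕ) [NeZero M]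
    (L : Fin 2 → Fin (r + 1) → ZMod M) :
    (aL F M L : ℝ) = ∑ u : Fin r → ZMod M, i1 (fun i u => qf (cm (ZMod M) F i) u) L u := by
  classical
  unfold aL
  rw [card_filter]
  push_cast
  refine sum_congr rfl fun u _ => ?_
  have h : ∀ i, qf (gg (cm (ZMod M) F) L i) (cv 1 u) =
      qf (cm (ZMod M) F i) u + ∑ j, L i j * cv 1 u j := by
    intro i
    have h1 := (hGGE (ZMod M) r (cm (ZMod M) F i) (L i) 1 u).1
    rw [one_mul] at h1
    exact h1
  unfold i1
  simp only [h]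

/-- AL1: for most pairs the density modulo `M` is at least one half -/
theorem pf_AL1 (hAL2 : T_AL2) (hAL3 : T_AL3) (hGGE : T_GGE) : T_AL1 := by
  intro r hr
  refine ⟨4, by norm_num, ?_⟩
  intro F M w₀ _ hw hp
  classical
  have hM0 : 0 < M := Nat.pos_of_ne_zero (NeZero.ne M)
  have hM : (0 : ℝ) < M := by exact_mod_cast hM0
  have hwR : (0 : ℝ) < w₀ := by exact_mod_cast hw
  obtain ⟨B, hB⟩ : ∃ B : ℝ, B = (M : ℝ) ^ (2 * (r + 1)) := ⟨_, rfl⟩
  have hB0 : 0 < B := by rw [hB]; positivity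
  obtain ⟨A, hA⟩ : ∃ A : ℝ, A = (M : ℝ) ^ (r - 2) := ⟨_, rfl⟩
  have hA0 : 0 < A := by rw [hA]; positivity
  have hMn : (M : ℝ) ^ r = A * M ^ 2 := by
    rw [hA, ← pow_add]
    congr 1
    omega
  have hBn : B = (A * M ^ 2 * M) ^ 2 := by
    rw [hB, ← hMn, ← pow_succ, ← pow_mul]
    congr 1
    ring
  set t : Fin 2 → (Fin r → ZMod M) → ZMod M := fun i u => qf (cm (ZMod M) F i) u with ht
  have hcu : ((univ : Finset (Fin r → ZMod M)).card : ℝ) = A * M ^ 2 := by
    rw [card_univ, Fintype.card_fun, ZMod.card, Fintype.card_fin, ← hMn]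
    push_cast
    rfl
  -- the first moment
  have m1 : ∑ L : Fin 2 → Fin (r + 1) → ZMod M, (aL F M L : ℝ) = B * A := by
    rw [sum_congr rfl fun L _ => aL_eq hGGE F M L, sum_comm]
    have h1 : ∀ u : Fin r → ZMod M, ∑ L : Fin 2 → Fin (r + 1) → ZMod M, i1 t L u =
        (A * M ^ 2) ^ 2 := by
      intro u
      rw [sum_i1, Fin.prod_univ_two, card_z1, card_z1]
      push_cast
      rw [hMn]
      ring
    rw [sum_congr rfl fun u _ => h1 u, sum_const, nsmul_eq_mul, hcu, hBn]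
    ring
  -- the second moment
  obtain ⟨H, hH⟩ : ∃ H : ℝ, H = ∑ h ∈ M.divisors, (h : ℝ) ^ 2 / (h : ℝ) ^ r := ⟨_, rfl⟩
  have c2 : ∀ (u u' : Fin r → ZMod M) (i : Fin 2), ((z2 (t i u) (t i u') u u').card : ℝ) ≤
      A * M * ((Finset.univ.filter fun a : ZMod M => ∀ i, a * (u i - u' i) = 0).card : ℝ) := by
    intro u u' i
    have h1 := hAL2 r M u u' (t i u) (t i u')
    have h2 : ((z2 (t i u) (t i u') u u').card : ℝ) * (M : ℝ) ^ 2 ≤ (M : ℝ) ^ (r + 1) *
        ((Finset.univ.filter fun a : ZMod M => ∀ i, a * (u i - u' i) = 0).card : ℝ) := by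
      exact_mod_cast h1
    have h3 : (M : ℝ) ^ (r + 1) = A * M ^ 2 * M := by rw [← hMn]; exact pow_succ _ _
    rw [h3] at h2
    refine le_of_mul_le_mul_right ?_ (show (0 : ℝ) < (M : ℝ) ^ 2 by positivity)
    calc ((z2 (t i u) (t i u') u u').card : ℝ) * (M : ℝ) ^ 2 ≤ _ := h2
      _ = _ := by ring
  have m2 : ∑ L : Fin 2 → Fin (r + 1) → ZMod M, (aL F M L : ℝ) ^ 2 ≤ B * A ^ 2 * H := by
    have e1 : ∑ L : Fin 2 → Fin (r + 1) → ZMod M, (aL F M L : ℝ) ^ 2 =
        ∑ u : Fin r → ZMod M, ∑ u' : Fin r → ZMod M, ∏ i, ((z2 (t i u) (t i u') u u').card : ℝ) := by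
      have e2 : ∀ L : Fin 2 → Fin (r + 1) → ZMod M, (aL F M L : ℝ) ^ 2 =
          ∑ u : Fin r → ZMod M, ∑ u' : Fin r → ZMod M, i1 t L u * i1 t L u' := by
        intro L
        rw [aL_eq hGGE, sq, sum_mul_sum]
      rw [sum_congr rfl fun L _ => e2 L, sum_comm]
      refine sum_congr rfl fun u _ => ?_
      rw [sum_comm]
      exact sum_congr rfl fun u' _ => sum_i2 _ _ _
    rw [e1]
    calc ∑ u : Fin r → ZMod M, ∑ u' : Fin r → ZMod M, ∏ i, ((z2 (t i u) (t i u') u u').card : ℝ)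
        ≤ ∑ u : Fin r → ZMod M, (A * M) ^ 2 * ∑ u' : Fin r → ZMod M,
            ((Finset.univ.filter fun a : ZMod M => ∀ i, a * (u i - u' i) = 0).card : ℝ) ^ 2 := by
          refine sum_le_sum fun u _ => ?_
          rw [mul_sum]
          refine sum_le_sum fun u' _ => ?_
          rw [Fin.prod_univ_two, ← mul_pow, sq]
          exact mul_le_mul (c2 u u' 0) (c2 u u' 1) (Nat.cast_nonneg _) (by positivity)
      _ ≤ ∑ _u : Fin r → ZMod M, (A * M) ^ 2 * ((M : ℝ) ^ r * H) := by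
          refine sum_le_sum fun u _ => mul_le_mul_of_nonneg_left ?_ (by positivity)
          rw [hH]
          exact hAL3 r M u
      _ = B * A ^ 2 * H := by
          rw [sum_const, nsmul_eq_mul, hcu, hMn, hBn]
          ring
  -- the divisors
  have hdiv : ∀ h ∈ M.divisors.erase 1, w₀ < h := by
    intro h hh
    rw [mem_erase, Nat.mem_divisors] at hh
    obtain ⟨p, hpp, hph⟩ := Nat.exists_prime_and_dvd hh.1
    have h1 := hp p hpp (hph.trans hh.2.1)
    have h2 : 0 < h := Nat.pos_of_dvd_of_pos hh.2.1 hM0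
    exact lt_of_lt_of_le h1 (Nat.le_of_dvd h2 hph)
  have hH1 : H ≤ 1 + 1 / (w₀ : ℝ) ^ 2 := by
    have h1 : (1 : ℕ) ∈ M.divisors := Nat.one_mem_divisors.2 hM0.ne'
    rw [hH, ← add_sum_erase _ _ h1]
    refine add_le_add (by simp) ?_
    refine (sum_le_sum fun h hh => ?_).trans (tailD w₀ hw _ hdiv)
    have h2 : 1 ≤ h := by
      have := hdiv h hh
      omega
    have h3 : (1 : ℝ) ≤ h := by exact_mod_cast h2
    rw [div_le_div_iff₀ (by positivity) (by positivity), one_mul, ← pow_add]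
    exact pow_le_pow_right₀ h3 (by omega)
  -- the variance
  have hcard : ∑ _L : Fin 2 → Fin (r + 1) → ZMod M, A ^ 2 = B * A ^ 2 := by
    rw [sum_const, nsmul_eq_mul, card_univ, Fintype.card_fun, Fintype.card_fun, ZMod.card,
      Fintype.card_fin, Fintype.card_fin, hB]
    push_cast
    rw [← pow_mul]
    congr 2
    ring
  have var : ∑ L : Fin 2 → Fin (r + 1) → ZMod M, ((aL F M L : ℝ) - A) ^ 2 ≤
      B * A ^ 2 * (1 / (w₀ : ℝ) ^ 2) := by
    have e1 : ∑ L : Fin 2 → Fin (r + 1) → ZMod M, ((aL F M L : ℝ) - A) ^ 2 =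
        ∑ L : Fin 2 → Fin (r + 1) → ZMod M, (aL F M L : ℝ) ^ 2 -
          2 * A * ∑ L : Fin 2 → Fin (r + 1) → ZMod M, (aL F M L : ℝ) + B * A ^ 2 := by
      rw [← hcard, mul_sum, ← sum_sub_distrib, ← sum_add_distrib]
      exact sum_congr rfl fun F _ => by ring
    rw [e1, m1]
    have h2 : B * A ^ 2 * (H - 1) ≤ B * A ^ 2 * (1 / (w₀ : ℝ) ^ 2) :=
      mul_le_mul_of_nonneg_left (by linarith) (by positivity)
    have h4 : B * A ^ 2 * H - 2 * A * (B * A) + B * A ^ 2 = B * A ^ 2 * (H - 1) := by ring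
    linarith
  -- Chebyshev
  obtain ⟨Z, hZ⟩ : ∃ Z : Finset (Fin 2 → Fin (r + 1) → ZMod M),
    Z = univ.filter fun L : Fin 2 → Fin (r + 1) → ZMod M => 2 * aL F M L < M ^ (r - 2) := ⟨_, rfl⟩
  have hZc : ((Finset.univ.filter fun L : Fin 2 → Fin (r + 1) → ZMod M =>
      2 * aL F M L < M ^ (r - 2)).card : ℝ) = (Z.card : ℝ) := by
    rw [hZ]
  rw [hZc]
  have h5 : (Z.card : ℝ) * (A ^ 2 / 4) ≤
      ∑ L : Fin 2 → Fin (r + 1) → ZMod M, ((aL F M L : ℝ) - A) ^ 2 := by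
    calc (Z.card : ℝ) * (A ^ 2 / 4) = ∑ _L ∈ Z, A ^ 2 / 4 := by rw [sum_const, nsmul_eq_mul]
      _ ≤ ∑ L ∈ Z, ((aL F M L : ℝ) - A) ^ 2 := by
          refine sum_le_sum fun L hL => ?_
          rw [hZ, mem_filter] at hL
          have h6 : 2 * (aL F M L : ℝ) < A := by
            rw [hA]
            exact_mod_cast hL.2
          nlinarith
      _ ≤ ∑ L : Fin 2 → Fin (r + 1) → ZMod M, ((aL F M L : ℝ) - A) ^ 2 :=
          sum_le_sum_of_subset_of_nonneg (subset_univ _) fun _ _ _ => sq_nonneg _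
  have h7 : (Z.card : ℝ) * (A ^ 2 / 4) ≤ B * A ^ 2 * (1 / (w₀ : ℝ) ^ 2) := h5.trans var
  rw [← hB]
  have h9 : (Z.card : ℝ) * (w₀ : ℝ) ^ 2 * (A ^ 2 / 4) ≤ 4 * B * (A ^ 2 / 4) := by
    calc (Z.card : ℝ) * (w₀ : ℝ) ^ 2 * (A ^ 2 / 4) = (Z.card : ℝ) * (A ^ 2 / 4) * (w₀ : ℝ) ^ 2 := by
          ring
      _ ≤ B * A ^ 2 * (1 / (w₀ : ℝ) ^ 2) * (w₀ : ℝ) ^ 2 :=
          mul_le_mul_of_nonneg_right h7 (by positivity)
      _ = 4 * B * (A ^ 2 / 4) := by
          field_simp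
  exact le_of_mul_le_mul_right h9 (by positivity)

end Pool.Agent.H17.HFS
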